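import Pool.Agent.K7.H80.EC.Stm

set_option autoImplicit false

/-!
# Job UB: the union bound
-/

open Finset

namespace Pool.Agent.K7.H7.ECUB

open Pool.Agent.K7.H80.EC

theorem pow_le_exp {s m : ℕ} {x : ℝ} (hs : 1 ≤ s) (hx : x ≤ (m : ℝ) / s) :
    (1 - 1 / (s : ℝ)) ^ m ≤ Real.exp (-x) := by
  have hs' : (1 : ℝ) ≤ s := by exact_mod_cast hs
  have h0 : 0 ≤ 1 - 1 / (s : ℝ) := by
    rw [sub_nonneg, div_le_one (by linarith)]
    exact hs'
  have h1 : 1 - 1 / (s : ℝ) ≤ Real.exp (-(1 / (s : ℝ))) := by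
    have := Real.add_one_le_exp (-(1 / (s : ℝ)))
    linarith
  calc (1 - 1 / (s : ℝ)) ^ m ≤ (Real.exp (-(1 / (s : ℝ)))) ^ m := pow_le_pow_left₀ h0 h1 m
    _ = Real.exp (-((m : ℝ) / s)) := by
      rw [← Real.exp_nat_mul]
      congr 1
      ring
    _ ≤ Real.exp (-x) := Real.exp_le_exp.2 (neg_le_neg hx)

/-- JOB UB -/
theorem t (hF : StFirst) (hN : StNb) (hD : StDisj) (hI : StInd) : StUB := by
  classical
  intro d k hk hkd
  have hd : 1 ≤ d := hk.trans hkd
  have hd' : (0 : ℝ) < d := by exact_mod_cast hd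
  set q : ℝ := Real.exp (-((2 : ℝ) ^ (k - 1) / (3 * d * (2 * k + 1)))) with hq
  have hq0 : 0 < q := Real.exp_pos _
  have hcard : (0 : ℝ) < (Fintype.card (Ord d) : ℝ) := by
    have : Nonempty (Ord d) := ⟨(Fintype.equivFin (E d)).symm⟩
    exact_mod_cast Fintype.card_pos
  have key : ∀ c ∈ Copies d k,
      ((univ.filter fun σ : Ord d => ∀ e : E d, InCopy c e → e ∉ final σ).card : ℝ) ≤
        q * (Fintype.card (Ord d) : ℝ) := by
    intro c hc
    obtain ⟨C, h1, h2, h3⟩ := hD d k hk c hc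
    have h4 := hI (E d) C nb (3 * d) (by omega) (fun e _ => by simp [nb]) (fun e _ => hN d e) h2
    have h5 : (univ.filter fun σ : Ord d => ∀ e : E d, InCopy c e → e ∉ final σ) ⊆
        univ.filter fun σ : Ord d => ∀ e ∈ C, ¬ ∀ f ∈ nb e, f ≠ e → σ.symm e < σ.symm f := by
      intro σ hσ
      rw [mem_filter] at hσ ⊢
      exact ⟨mem_univ _, fun e he h => hσ.2 e (h1 e he) (hF d σ e h)⟩
    have h6 : ((univ.filter fun σ : Ord d => ∀ e : E d, InCopy c e → e ∉ final σ).card : ℝ) ≤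
        ((univ.filter fun σ : Ord d =>
          ∀ e ∈ C, ¬ ∀ f ∈ nb e, f ≠ e → σ.symm e < σ.symm f).card : ℝ) := by
      exact_mod_cast card_le_card h5
    have h7 : ((univ.filter fun σ : Ord d =>
          ∀ e ∈ C, ¬ ∀ f ∈ nb e, f ≠ e → σ.symm e < σ.symm f).card : ℝ) ≤
        (1 - 1 / ((3 * d : ℕ) : ℝ)) ^ C.card * (Fintype.card (Ord d) : ℝ) := by
      convert h4 using 3
      · ext σ
        simp only [mem_filter, mem_univ, true_and]
      · refine congrArg (fun i => @Fintype.card (H80.EC.Ord d) i) ?_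
        exact Subsingleton.elim _ _
    refine h6.trans (h7.trans (mul_le_mul_of_nonneg_right ?_ hcard.le))
    refine pow_le_exp (by omega) ?_
    have h8 : (2 : ℝ) ^ (k - 1) ≤ (2 * k + 1) * C.card := by exact_mod_cast h3
    push_cast
    rw [div_le_div_iff₀ (by positivity) (by positivity)]
    nlinarith [mul_le_mul_of_nonneg_right h8 (by positivity : (0 : ℝ) ≤ 3 * d)]
  -- the sum
  have hsum : (∑ σ : Ord d, (NE k σ : ℝ)) =
      ∑ c ∈ Copies d k, ((univ.filter fun σ : Ord d => ∀ e : E d, InCopy c e → e ∉ final σ).card : ℝ) := by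
    have e1 : ∀ σ : Ord d, (NE k σ : ℝ) =
        ∑ c ∈ Copies d k, if (∀ e : E d, InCopy c e → e ∉ final σ) then (1 : ℝ) else 0 := by
      intro σ
      rw [NE, card_filter]
      push_cast
      refine sum_congr rfl fun c _ => ?_
      congr
    simp_rw [e1]
    rw [sum_comm]
    refine sum_congr rfl fun c _ => ?_
    rw [card_filter]
    push_cast
    rfl
  have hcop : ((Copies d k).card : ℝ) ≤ 4 ^ d := by
    have h1 : (Copies d k).card ≤ Fintype.card (Finset (Fin d) × (Fin d → Bool)) := by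
      rw [← card_univ]
      exact card_le_card (subset_univ _)
    have h2 : Fintype.card (Finset (Fin d) × (Fin d → Bool)) = 4 ^ d := by
      rw [Fintype.card_prod, Fintype.card_finset, Fintype.card_fun, Fintype.card_fin, Fintype.card_bool,
        ← mul_pow]
      norm_num
    rw [h2] at h1
    exact_mod_cast h1
  rw [EN, hsum, div_le_iff₀ hcard]
  calc ∑ c ∈ Copies d k, ((univ.filter fun σ : Ord d => ∀ e : E d, InCopy c e → e ∉ final σ).card : ℝ)
      ≤ ∑ _c ∈ Copies d k, q * (Fintype.card (Ord d) : ℝ) := sum_le_sum key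
    _ = (Copies d k).card * (q * (Fintype.card (Ord d) : ℝ)) := by rw [sum_const, nsmul_eq_mul]
    _ ≤ 4 ^ d * (q * (Fintype.card (Ord d) : ℝ)) :=
      mul_le_mul_of_nonneg_right hcop (by positivity)
    _ = 4 ^ d * q * (Fintype.card (Ord d) : ℝ) := by ring

end Pool.Agent.K7.H7.ECUB
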