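import Pool.Agent.K7.H97.MI.Basic
import Pool.Agent.W916.MI.C

/-!
Project MI, job KEY.
-/

set_option autoImplicit false

namespace Pool.Agent.K7.H7.MIKey

open Pool.Agent.K7.H97.MI

theorem trace_conj (g : M2ˣ) (T : M2) : ((g : M2) * T * ((g⁻¹ : M2ˣ) : M2)).trace = T.trace := by
  rw [Matrix.trace_mul_comm, ← mul_assoc, Units.inv_mul, one_mul]

theorem det_conj (g : M2ˣ) (T : M2) : ((g : M2) * T * ((g⁻¹ : M2ˣ) : M2)).det = T.det := by
  rw [Matrix.det_mul_comm, ← mul_assoc, Units.inv_mul, one_mul]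

theorem ht_conj (g : M2ˣ) (T : M2) : ht ((g : M2) * T * ((g⁻¹ : M2ˣ) : M2)) = ht T := by
  rw [ht, ht, trace_conj]

theorem dd_conj (g : M2ˣ) (T : M2) : dd ((g : M2) * T * ((g⁻¹ : M2ˣ) : M2)) = dd T := by
  rw [dd, dd, trace_conj, det_conj]

theorem conj_smul (g : M2ˣ) (c : ℝ) (T : M2) :
    (g : M2) * (c • T) * ((g⁻¹ : M2ˣ) : M2) = c • ((g : M2) * T * ((g⁻¹ : M2ˣ) : M2)) := by
  rw [mul_smul_comm, smul_mul_assoc]

theorem conj_one (g : M2ˣ) : (g : M2) * 1 * ((g⁻¹ : M2ˣ) : M2) = 1 := by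
  rw [mul_one, Units.mul_inv]

theorem tl_conj (g : M2ˣ) (T : M2) :
    tl ((g : M2) * T * ((g⁻¹ : M2ˣ) : M2)) = (g : M2) * tl T * ((g⁻¹ : M2ˣ) : M2) := by
  rw [tl, tl, ht_conj, mul_sub, sub_mul, conj_smul, conj_one]

theorem conj_ne_zero (g : M2ˣ) {T : M2} (h : T ≠ 0) :
    (g : M2) * T * ((g⁻¹ : M2ˣ) : M2) ≠ 0 := by
  intro h0
  apply h
  have h1 : T = ((g⁻¹ : M2ˣ) : M2) * ((g : M2) * T * ((g⁻¹ : M2ˣ) : M2)) * (g : M2) := by
    rw [← mul_assoc, ← mul_assoc, Units.inv_mul, one_mul, mul_assoc, Units.inv_mul, mul_one]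
  rw [h1, h0, mul_zero, zero_mul]

theorem key_conj (g : M2ˣ) (T : M2) : key ((g : M2) * T * ((g⁻¹ : M2ˣ) : M2)) = key T := by
  rcases key_cases T with h | h | h | h | h
  · rw [h.2, h.1, mul_zero, zero_mul, key_zero]
  · rw [h.2.2, key_eq_sc, ht_conj, tl_conj, h.2.1, mul_zero, zero_mul]
    exact ⟨h.1, rfl, rfl⟩
  · rw [h.2.2, key_eq_reg, ht_conj, tl_conj, rr, rr, ht_conj, dd_conj]
    exact ⟨h.1, conj_ne_zero g h.2.1, rfl, rfl⟩
  · rw [h.2.2.2, key_eq_inf, ht_conj, dd_conj]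
    exact ⟨h.1, h.2.1, rfl⟩
  · rw [h.2.2.2, key_eq_nil, ht_conj, dd_conj, tl_conj]
    exact ⟨h.1, h.2.1, conj_ne_zero g h.2.2.1⟩

/-- nonscalar matrices with the same half trace and `dd` are conjugate -/
theorem exists_conj' {T T' : M2} {c : ℝ} (hc : 0 < c) (h1 : c * ht T = ht T')
    (h2 : c ^ 2 * dd T = dd T') (h3 : tl T ≠ 0) (h4 : tl T' ≠ 0) :
    ∃ (c : ℝ) (g : M2ˣ), 0 < c ∧ T' = c • ((g : M2) * T * ((g⁻¹ : M2ˣ) : M2)) := by
  obtain ⟨u, hu⟩ := Pool.Agent.W916.MI.exists_conj (c • tl T) (tl T')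
    (by rw [Matrix.trace_smul, trace_tl, smul_zero]) (trace_tl T')
    (smul_ne_zero hc.ne' h3) h4 (by
      have e1 : dd T = -(tl T).det := dd_eq_neg_det_tl T
      have e2 : dd T' = -(tl T').det := dd_eq_neg_det_tl T'
      rw [Matrix.det_smul, Fintype.card_fin]
      have e3 : (tl T).det = - dd T := by rw [e1, neg_neg]
      have e4 : (tl T').det = - dd T' := by rw [e2, neg_neg]
      rw [e3, e4, ← h2]
      ring)
  refine ⟨c, u, hc, ?_⟩
  have e : T' = ht T' • (1 : M2) + tl T' := (ht_add_tl T').symm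
  rw [conj_smul] at hu
  rw [e, ← hu, ← h1, ← smul_smul, ← smul_add]
  congr 1
  conv_rhs => rw [← ht_add_tl T]
  rw [mul_add, add_mul, conj_smul, conj_one]

theorem exists_pos_mul {a b : ℝ} (ha : a ≠ 0) (hb : b ≠ 0)
    (h : SignType.sign a = SignType.sign b) : 0 < b / a := by
  rcases lt_or_gt_of_ne ha with h1 | h1
  · rw [sign_neg h1] at h
    have h2 : b < 0 := by
      by_contra h3
      push Not at h3
      have h4 : 0 < b := lt_of_le_of_ne h3 hb.symm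
      rw [sign_pos h4] at h
      exact absurd h (by decide)
    exact div_pos_of_neg_of_neg h2 h1
  · rw [sign_pos h1] at h
    have h2 : 0 < b := by
      by_contra h3
      push Not at h3
      have h4 : b < 0 := lt_of_le_of_ne h3 hb
      rw [sign_neg h4] at h
      exact absurd h (by decide)
    exact div_pos h2 h1

theorem conj_of_key (T T' : M2) (h : key T = key T') :
    ∃ (c : ℝ) (g : M2ˣ), 0 < c ∧ T' = c • ((g : M2) * T * ((g⁻¹ : M2ˣ) : M2)) := by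
  rcases key_cases T with h1 | h1 | h1 | h1 | h1
  · rw [h1.2] at h
    have h2 : T' = 0 := key_eq_zero.1 h.symm
    refine ⟨1, 1, one_pos, ?_⟩
    rw [h2, h1.1]
    simp
  · rw [h1.2.2] at h
    obtain ⟨h2, h3, h4⟩ := key_eq_sc.1 h.symm
    refine ⟨ht T' / ht T, 1, exists_pos_mul h1.1 h2 h4.symm, ?_⟩
    rw [← ht_add_tl T', h3, add_zero, ht_smul_one, ← ht_add_tl T, h1.2.1, add_zero, ht_smul_one]
    rw [conj_smul, conj_one, smul_smul, div_mul_cancel₀ _ h1.1]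
  · rw [h1.2.2] at h
    obtain ⟨h2, h3, h4, h5⟩ := key_eq_reg.1 h.symm
    have hc := exists_pos_mul h1.1 h2 h5.symm
    refine exists_conj' hc (div_mul_cancel₀ _ h1.1) ?_ h1.2.1 h3
    rw [rr, rr] at h4
    rw [div_eq_iff (pow_ne_zero 2 h2)] at h4
    rw [h4, div_pow]
    ring
  · rw [h1.2.2.2] at h
    obtain ⟨h2, h3, h4⟩ := key_eq_inf.1 h.symm
    have hc := exists_pos_mul h1.2.1 h3 h4.symm
    have h5 : tl T' ≠ 0 := fun h6 => h3 (tl_eq_zero_of_dd h6)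
    refine exists_conj' (Real.sqrt_pos.2 hc) (by rw [h1.1, h2, mul_zero]) ?_ h1.2.2.1 h5
    rw [Real.sq_sqrt hc.le, div_mul_cancel₀ _ h1.2.1]
  · rw [h1.2.2.2] at h
    obtain ⟨h2, h3, h4⟩ := key_eq_nil.1 h.symm
    exact exists_conj' one_pos (by rw [h1.1, h2, mul_zero]) (by rw [h1.2.1, h3, mul_zero])
      h1.2.2.1 h4

theorem tr_conj {P : Om → M2} (h : TR P) (g : M2ˣ) (x : Om) :
    P (fun i => (g : M2) * x i * ((g⁻¹ : M2ˣ) : M2)) = (g : M2) * P x * ((g⁻¹ : M2ˣ) : M2) := by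
  induction h with
  | const r => simp only; rw [conj_smul, conj_one]
  | var i => rfl
  | add hf hg ihf ihg => simp only; rw [ihf, ihg, mul_add, add_mul]
  | @mul f k hf hg ihf ihg =>
    simp only
    rw [ihf, ihg]
    rw [show (g : M2) * f x * ((g⁻¹ : M2ˣ) : M2) * ((g : M2) * k x * ((g⁻¹ : M2ˣ) : M2)) =
      (g : M2) * f x * (((g⁻¹ : M2ˣ) : M2) * (g : M2)) * k x * ((g⁻¹ : M2ˣ) : M2) from by
        simp only [mul_assoc], Units.inv_mul, mul_one]
    simp only [mul_assoc]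
  | tr hf ihf => simp only; rw [ihf, trace_conj, conj_smul, conj_one]

theorem key : StKey :=
  ⟨fun T c g hc => by rw [key_smul hc, key_conj], conj_of_key, fun _ hP g x => tr_conj hP g x⟩

end Pool.Agent.K7.H7.MIKey
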