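import Pool.Agent.K7.H97.MI.Basic

/-!
Project MI, job STEPS (StS and StI).
-/

set_option autoImplicit false

open Polynomial

namespace Pool.Agent.K7.H7.MISteps

open Pool.Agent.K7.H97.MI

/-- the factor -/
noncomputable def Th (N : ℝ[X]) (k : ℕ) (z r : ℝ) : ℝ :=
  th z / td z * (N.eval r / (1 + r ^ 2) ^ k)

theorem Th_facts {N : ℝ[X]} {k : ℕ} {z r : ℝ}
    (hN : 0 ≤ N.eval r ∧ N.eval r ≤ (1 + r ^ 2) ^ k) :
    0 ≤ Th N k z r ∧ Th N k z r ≤ N.eval r / (1 + r ^ 2) ^ k ∧ Th N k z r ≤ 1 ∧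
      (Th N k z r = 1 → z = 1 ∧ N.eval r = (1 + r ^ 2) ^ k) := by
  have hp : 0 < (1 + r ^ 2) ^ k := by positivity
  have h1 : 0 ≤ th z / td z := div_nonneg (th_nonneg z) (td_pos z).le
  have h2 : th z / td z ≤ 1 := (div_le_one (td_pos z)).2 (th_le z)
  have h3 : 0 ≤ N.eval r / (1 + r ^ 2) ^ k := div_nonneg hN.1 hp.le
  have h4 : N.eval r / (1 + r ^ 2) ^ k ≤ 1 := (div_le_one hp).2 hN.2
  unfold Th
  refine ⟨mul_nonneg h1 h3, ?_, ?_, ?_⟩
  · nlinarith
  · nlinarith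
  · intro h
    have h5 : th z / td z = 1 := by nlinarith
    have h6 : N.eval r / (1 + r ^ 2) ^ k = 1 := by rw [h5, one_mul] at h; exact h
    refine ⟨th_eq ?_, ?_⟩
    · rwa [div_eq_one_iff_eq (td_pos z).ne'] at h5
    · rwa [div_eq_one_iff_eq hp.ne'] at h6

theorem M_eq {N : ℝ[X]} {k : ℕ} (hk : N.natDegree < 2 * k) (z : ℝ) {T : M2} (h : ht T ≠ 0) :
    td z * qq T ^ k - th z * Nh N k (dd T) (ht T ^ 2) =
      (td z * qq T ^ k) * (1 - Th N k z (rr T)) := by
  rw [Nh_qq hk h, Th]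
  have := (td_pos z).ne'
  field_simp

/-- the general step -/
theorem gen {K : Set Key} {Z : Finset ℝ} {s : SignType} {N : ℝ[X]} {k : ℕ} {new : Key}
    (hR : Realizes K) (hnil : Key.nil ∉ K) (h0 : (0 : ℝ) ∈ Z) (hnew : new ≠ Key.zero)
    (hk : N.natDegree < 2 * k)
    (hN : ∀ r : ℝ, 0 ≤ N.eval r ∧ N.eval r ≤ (1 + r ^ 2) ^ k) (hZ : ∀ z ∈ Z, N.eval z = 0)
    (F : M2 → ℝ → ℝ → M2) (hFa : ∀ T D, F T D D = D • T)
    (hFb : ∀ (P : Om → M2) (D M : Om → ℝ), TR P → PR D → PR M →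
      TR (fun x => F (P x) (D x) (M x)))
    (hFc : ∀ (T : M2) (D Θ : ℝ), ht T ≠ 0 → tl T ≠ 0 → rr T ∉ Z → 0 < D → 0 ≤ Θ → Θ < 1 →
      Θ ≤ N.eval (rr T) / (1 + rr T ^ 2) ^ k → key T ∈ K → key (F T D (D * (1 - Θ))) ∈ K)
    (hFd : ∀ (T : M2) (D : ℝ), ht T ≠ 0 → tl T ≠ 0 → rr T ∉ Z → 0 < D →
      N.eval (rr T) = (1 + rr T ^ 2) ^ k → SignType.sign (ht T) = s → key (F T D 0) = new)
    (hFe : ∃ r, r ∉ Z ∧ N.eval r = (1 + r ^ 2) ^ k ∧ Key.reg r s ∈ K) :
    Realizes (insert new K) := by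
  obtain ⟨P, hP, hPK⟩ := hR
  obtain ⟨n, hn⟩ := hP.local
  have hk1 : k ≠ 0 := by omega
  -- the scalar functions
  obtain ⟨zf, hzf⟩ : ∃ zf : Om → ℝ, zf = fun x => (s : ℝ) * (ht (x n) ^ 2 * ht (P x)) := ⟨_, rfl⟩
  obtain ⟨D, hD⟩ : ∃ D : Om → ℝ, D = fun x => td (zf x) * qq (P x) ^ k := ⟨_, rfl⟩
  obtain ⟨M, hM⟩ : ∃ M : Om → ℝ,
      M = fun x => D x - th (zf x) * Nh N k (dd (P x)) (ht (P x) ^ 2) := ⟨_, rfl⟩
  have hzP : PR zf := by
    rw [hzf]
    exact (PR.const _).mul (((TR.var n).ht.pow 2).mul hP.ht)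
  have hDP : PR D := by rw [hD]; exact hzP.td.mul (hP.qq.pow k)
  have hMP : PR M := by rw [hM]; exact hDP.sub (hzP.th.mul (hP.Nh N k))
  refine ⟨fun x => F (P x) (D x) (M x), hFb P D M hP hDP hMP, ?_⟩
  have hDx : ∀ x, D x = td (zf x) * qq (P x) ^ k := fun x => by rw [hD]
  have hMx : ∀ x, M x = D x - th (zf x) * Nh N k (dd (P x)) (ht (P x) ^ 2) := fun x => by rw [hM]
  have hDpos : ∀ x, 0 < qq (P x) → 0 < D x := fun x h => by
    rw [hDx]; exact mul_pos (td_pos _) (pow_pos h k)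
  have hnoNil : ∀ x, key (P x) ≠ Key.nil := fun x h =>
    hnil ((hPK Key.nil (by simp)).2 ⟨x, h⟩)
  have hinK : ∀ x, key (P x) ≠ Key.zero → key (P x) ∈ K := fun x h => (hPK _ h).2 ⟨x, rfl⟩
  have hMreg : ∀ x, ht (P x) ≠ 0 → M x = D x * (1 - Th N k (zf x) (rr (P x))) := by
    intro x hx
    rw [hMx, hDx]
    exact M_eq hk (zf x) hx
  -- keys of the new function
  have hkeys : ∀ x, key (F (P x) (D x) (M x)) ≠ Key.zero →
      key (F (P x) (D x) (M x)) ∈ insert new K := by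
    intro x hne
    rcases key_cases (P x) with h | h | h | h | h
    · exfalso
      apply hne
      have h2 : qq (P x) = 0 := by rw [h.1]; simp [qq, ht, dd]
      have h1 : D x = 0 := by
        rw [hDx, h2, zero_pow hk1, mul_zero]
      have h3 : M x = 0 := by
        rw [hMx, h1]
        have : ht (P x) = 0 := by rw [h.1]; simp [ht]
        rw [this, zero_pow two_ne_zero, Nh_zero]
        ring
      rw [h3, h1, hFa, zero_smul, key_zero]
    · -- scalar
      right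
      have h5 : rr (P x) = 0 := by rw [rr, tl_eq_zero_of_dd h.2.1, zero_div]
      have h6 : M x = D x := by
        rw [hMreg x h.1, Th, h5, hZ 0 h0]
        ring
      rw [h6, hFa, key_smul (hDpos x (qq_pos h.1))]
      exact hinK x (by rw [h.2.2]; simp)
    · -- regular
      have hDp := hDpos x (qq_pos h.1)
      have hKx : key (P x) ∈ K := hinK x (by rw [h.2.2]; simp)
      by_cases hz : rr (P x) ∈ Z
      · right
        have h6 : M x = D x := by
          rw [hMreg x h.1, Th, hZ _ hz]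
          ring
        rw [h6, hFa, key_smul hDp]
        exact hKx
      · obtain ⟨f1, f2, f3, f4⟩ := Th_facts (z := zf x) (hN (rr (P x)))
        rw [hMreg x h.1]
        rcases eq_or_lt_of_le f3 with f5 | f5
        · left
          obtain ⟨f6, f7⟩ := f4 f5
          rw [f5, sub_self, mul_zero]
          refine hFd _ _ h.1 h.2.1 hz hDp f7 ?_
          apply sign_of_pos (l := ht (x n))
          have : zf x = (s : ℝ) * (ht (x n) ^ 2 * ht (P x)) := by rw [hzf]
          rw [← this, f6]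
          exact one_pos
        · right
          exact hFc _ _ _ h.1 h.2.1 hz hDp f1 f5 f2 hKx
    · -- trace zero
      right
      have h6 : M x = D x := by
        rw [hMx, h.1, zero_pow two_ne_zero, Nh_zero]
        ring
      rw [h6, hFa, key_smul (hDpos x (qq_pos' h.2.1))]
      exact hinK x (by rw [h.2.2.2]; simp)
    · exact absurd h.2.2.2 (hnoNil x)
  intro key' hkey'
  constructor
  · intro hmem
    rcases hmem with rfl | hmem
    · -- the new key
      obtain ⟨r, hr1, hr2, hr3⟩ := hFe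
      obtain ⟨x, hx⟩ := (hPK (Key.reg r s) (by simp)).1 hr3
      obtain ⟨g1, g2, g3, g4⟩ := key_eq_reg.1 hx
      obtain ⟨l, hl⟩ := exists_lam g1 g4
      have e1 : P (Function.update x n (l • (1 : M2))) = P x := fresh hn le_rfl x _
      have e2 : zf (Function.update x n (l • (1 : M2))) = 1 := by
        rw [hzf]
        simp only [Function.update_self, e1, ht_smul_one]
        exact hl
      have hDp : 0 < D (Function.update x n (l • (1 : M2))) :=
        hDpos _ (by rw [e1]; exact qq_pos g1)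
      refine ⟨Function.update x n (l • (1 : M2)), ?_⟩
      have e3 : M (Function.update x n (l • (1 : M2))) = 0 := by
        rw [hMreg _ (by rw [e1]; exact g1), e1, e2, Th, g3, hr2, th_one,
          div_self (td_pos 1).ne', div_self (by positivity)]
        ring
      simp only
      rw [e3, e1]
      exact hFd _ _ g1 g2 (by rw [g3]; exact hr1) hDp (by rw [g3]; exact hr2) g4
    · -- the old keys
      obtain ⟨x, hx⟩ := (hPK key' hkey').1 hmem
      have e1 : P (Function.update x n 0) = P x := fresh hn le_rfl x _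
      have e2 : zf (Function.update x n 0) = 0 := by
        rw [hzf]
        simp only [Function.update_self]
        have : ht (0 : M2) = 0 := by simp [ht]
        rw [this]
        ring
      have e3 : M (Function.update x n 0) = D (Function.update x n 0) := by
        rw [hMx, e2, th_zero]
        ring
      have hq : 0 < qq (P x) := by
        rcases key_cases (P x) with h | h | h | h | h
        · rw [h.2] at hx
          exact absurd hx.symm hkey'
        · exact qq_pos h.1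
        · exact qq_pos h.1
        · exact qq_pos' h.2.1
        · exact absurd h.2.2.2 (hnoNil x)
      refine ⟨Function.update x n 0, ?_⟩
      simp only
      rw [e3, hFa, key_smul (hDpos _ (by rw [e1]; exact hq)), e1, hx]
  · rintro ⟨x, hx⟩
    rw [← hx]
    exact hkeys x (by rw [hx]; exact hkey')

theorem bump_in {Z : Finset ℝ} {N : ℝ[X]} {k : ℕ} {p q C : ℝ} (hC : 1 ≤ C) (h0 : (0 : ℝ) ∈ Z)
    (hB : ∀ r : ℝ, r ∉ Set.Ioo p q → r ∉ Z → ∀ c ∈ Z,
      C * (1 + r ^ 2) * N.eval r < |r - c| * (1 + r ^ 2) ^ k) {r : ℝ} (hr : r ∉ Z)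
    (hN : N.eval r = (1 + r ^ 2) ^ k) : r ∈ Set.Ioo p q := by
  by_contra h
  have h1 := hB r h hr 0 h0
  rw [hN, sub_zero] at h1
  have hp : 0 < (1 + r ^ 2) ^ k := by positivity
  have h2 : C * (1 + r ^ 2) < |r| := lt_of_mul_lt_mul_right h1 hp.le
  have h3 : |r| ≤ 1 + r ^ 2 := by
    rw [← sq_abs r]
    nlinarith [sq_nonneg (|r| - 1), abs_nonneg r]
  nlinarith [sq_nonneg r]

theorem not_mem_uIcc {r r' c : ℝ} (h : |r - r'| < |r - c|) : c ∉ Set.uIcc r r' := by
  intro hc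
  have := Set.abs_sub_left_of_mem_uIcc hc
  rw [abs_sub_comm c r, abs_sub_comm r' r] at this
  linarith

theorem bump_bound {Z : Finset ℝ} {N : ℝ[X]} {k : ℕ} {p q C : ℝ}
    (hB : ∀ r : ℝ, r ∉ Set.Ioo p q → r ∉ Z → ∀ c ∈ Z,
      C * (1 + r ^ 2) * N.eval r < |r - c| * (1 + r ^ 2) ^ k) {r : ℝ} (hr : r ∉ Z)
    (hr' : r ∉ Set.Ioo p q) {c : ℝ} (hc : c ∈ Z) :
    C * (1 + r ^ 2) * (N.eval r / (1 + r ^ 2) ^ k) < |r - c| := by
  have h1 := hB r hr' hr c hc
  have hp : 0 < (1 + r ^ 2) ^ k := by positivity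
  rw [← mul_div_assoc, div_lt_iff₀ hp]
  exact h1

theorem abs_le_half (r : ℝ) : 2 * |r| ≤ 1 + r ^ 2 := by
  rw [← sq_abs r]
  nlinarith [sq_nonneg (|r| - 1)]

theorem stepS (hbump : StBump) : StS := by
  intro K Z ξ s hR hL hnil h0 hs hξ hξ0 hcZ
  have hio : ∀ z ∈ Z, z ∉ Set.Ioo (min 0 ξ) (max 0 ξ) := by
    intro z hz hz'
    by_cases h : z = 0
    · rw [h] at hz'
      rcases lt_or_gt_of_ne hξ0 with h1 | h1
      · rw [max_eq_left h1.le] at hz'
        exact lt_irrefl _ hz'.2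
      · rw [min_eq_left h1.le] at hz'
        exact lt_irrefl _ hz'.1
    · exact hcZ z hz h ⟨hz'.1.le, hz'.2.le⟩
  obtain ⟨N, k, hk, hN, hZ, ⟨r1, hr1, hr1N⟩, hB⟩ := hbump Z (min 0 ξ) (max 0 ξ)
    (min_lt_max.2 (Ne.symm hξ0)) hio 6 (by norm_num)
  have hin : ∀ r ∈ Set.Ioo (min 0 ξ) (max 0 ξ), ∀ r' , (∃ t : ℝ, 0 < t ∧ t ≤ 1 ∧ r' = t * r) →
      ∀ z ∈ Z, z ∉ Set.uIcc r r' := by
    rintro r hr r' ⟨t, ht0, ht1, rfl⟩ z hz hz'
    have h2 := Set.mem_uIcc.1 hz'
    rcases lt_or_gt_of_ne hξ0 with h1 | h1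
    · rw [min_eq_right h1.le, max_eq_left h1.le] at hr
      have h3 : r ≤ t * r := by nlinarith [hr.2]
      have h4 : t * r < 0 := mul_neg_of_pos_of_neg ht0 hr.2
      have h5 : r ≤ z ∧ z ≤ t * r := by
        rcases h2 with h2 | h2
        · exact h2
        · exact ⟨by linarith [h2.1, h2.2], by linarith [h2.1, h2.2]⟩
      refine hcZ z hz (by linarith [h5.2] : z < 0).ne ?_
      rw [Set.mem_uIcc]
      right
      exact ⟨by linarith [hr.1, h5.1], by linarith [h5.2]⟩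
    · rw [min_eq_left h1.le, max_eq_right h1.le] at hr
      have h3 : t * r ≤ r := by nlinarith [hr.1]
      have h4 : 0 < t * r := mul_pos ht0 hr.1
      have h5 : t * r ≤ z ∧ z ≤ r := by
        rcases h2 with h2 | h2
        · exact ⟨by linarith [h2.1, h2.2], by linarith [h2.1, h2.2]⟩
        · exact h2
      refine hcZ z hz (by linarith [h5.1] : 0 < z).ne' ?_
      rw [Set.mem_uIcc]
      left
      exact ⟨by linarith [h5.1], by linarith [hr.2, h5.2]⟩
  refine gen (new := Key.sc s) hR hnil h0 (by simp) hk hN hZ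
    (fun T D M => (D * ht T) • (1 : M2) + M • tl T) ?_ ?_ ?_ ?_ ?_ (s := s)
  · intro T D
    conv_rhs => rw [← ht_add_tl T]
    rw [smul_add, smul_smul]
  · intro P D M hP hD hM
    exact TR.add (hD.mul hP.ht) (PR.smul hM hP.tl)
  · intro T D Θ g1 g2 g3 g4 g5 g6 g7 g8
    have hm : 0 < D * (1 - Θ) := mul_pos g4 (by linarith)
    have k1 : key ((D * ht T) • (1 : M2) + (D * (1 - Θ)) • tl T) =
        Key.reg ((1 - Θ) ^ 2 * rr T) (SignType.sign (ht T)) := by
      rw [key_eq_reg, ht_mk_smul, tl_mk_smul, rr, dd_mk_smul, ht_mk_smul]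
      refine ⟨mul_ne_zero g4.ne' g1, smul_ne_zero hm.ne' g2, ?_, ?_⟩
      · rw [rr]
        field_simp
      · rw [sign_mul, sign_pos g4, one_mul]
    rw [k1]
    rw [key_reg g2 g1] at g8
    refine hL (rr T) _ _ ?_ g8
    intro z hz
    by_cases h1 : rr T ∈ Set.Ioo (min 0 ξ) (max 0 ξ)
    · exact hin _ h1 _ ⟨(1 - Θ) ^ 2, pow_pos (by linarith) 2, by nlinarith, rfl⟩ z hz
    · apply not_mem_uIcc
      have h2 := bump_bound hB g3 h1 hz
      have h3 := abs_le_half (rr T)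
      have h4 : rr T - (1 - Θ) ^ 2 * rr T = (2 * Θ - Θ ^ 2) * rr T := by ring
      have h5 : 0 ≤ 2 * Θ - Θ ^ 2 := by nlinarith
      rw [h4, abs_mul, abs_of_nonneg h5]
      have h6 : (2 * Θ - Θ ^ 2) * |rr T| ≤ Θ * (1 + rr T ^ 2) := by
        nlinarith [abs_nonneg (rr T), mul_nonneg g5 (abs_nonneg (rr T)),
          mul_nonneg (mul_nonneg g5 g5) (abs_nonneg (rr T))]
      have h7 : Θ * (1 + rr T ^ 2) ≤ (N.eval (rr T) / (1 + rr T ^ 2) ^ k) * (1 + rr T ^ 2) :=
        mul_le_mul_of_nonneg_right g7 (by positivity)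
      have h8 : 0 ≤ N.eval (rr T) / (1 + rr T ^ 2) ^ k := le_trans g5 g7
      have h9 : 0 ≤ (1 + rr T ^ 2) * (N.eval (rr T) / (1 + rr T ^ 2) ^ k) := by positivity
      nlinarith
  · intro T D g1 g2 g3 g4 g5 g6
    rw [zero_smul, add_zero, key_eq_sc, ht_smul_one]
    refine ⟨mul_ne_zero g4.ne' g1, ?_, by rw [sign_mul, sign_pos g4, one_mul, g6]⟩
    rw [tl, ht_smul_one, sub_self]
  · refine ⟨r1, ?_, hr1N, ?_⟩
    · intro h
      exact hio r1 h hr1
    · refine hL ξ r1 s ?_ hξ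
      intro z hz hz'
      by_cases hz0 : z = 0
      · rw [hz0] at hz'
        have h2 := Set.mem_uIcc.1 hz'
        rcases lt_or_gt_of_ne hξ0 with h1 | h1
        · rw [min_eq_right h1.le, max_eq_left h1.le] at hr1
          rcases h2 with h2 | h2
          · linarith [h2.2, hr1.2]
          · linarith [h2.2]
        · rw [min_eq_left h1.le, max_eq_right h1.le] at hr1
          rcases h2 with h2 | h2
          · linarith [h2.1]
          · linarith [h2.1, hr1.1]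
      · refine hcZ z hz hz0 ?_
        have h2 := Set.mem_uIcc.1 hz'
        rw [Set.mem_uIcc]
        rcases lt_or_gt_of_ne hξ0 with h1 | h1
        · rw [min_eq_right h1.le, max_eq_left h1.le] at hr1
          right
          rcases h2 with h2 | h2
          · exact ⟨h2.1, by linarith [h2.2, hr1.2]⟩
          · exact ⟨by linarith [h2.1, hr1.1], by linarith [h2.2]⟩
        · rw [min_eq_left h1.le, max_eq_right h1.le] at hr1
          left
          rcases h2 with h2 | h2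
          · exact ⟨by linarith [h2.1], by linarith [h2.2, hr1.2]⟩
          · exact ⟨by linarith [h2.1, hr1.1], h2.2⟩

theorem stepI_aux (hbump : StBump) {K : Set Key} {Z : Finset ℝ} {ξ p q : ℝ} {s σ : SignType}
    (hR : Realizes K) (hL : Local Z K) (hnil : Key.nil ∉ K) (h0 : (0 : ℝ) ∈ Z)
    (hξ : Key.reg ξ s ∈ K) (hpq : p < q) (hio : ∀ z ∈ Z, z ∉ Set.Ioo p q)
    (hin : ∀ r ∈ Set.Ioo p q, ∀ t : ℝ, 1 ≤ t → ∀ z ∈ Z, z ∉ Set.uIcc r (t * r))
    (hσ : ∀ r ∈ Set.Ioo p q, r ≠ 0 ∧ SignType.sign r = σ)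
    (hloc : ∀ r ∈ Set.Ioo p q, ∀ z ∈ Z, z ∉ Set.uIcc ξ r) :
    Realizes (insert (Key.inf σ) K) := by
  obtain ⟨N, k, hk, hN, hZ, ⟨r1, hr1, hr1N⟩, hB⟩ := hbump Z p q hpq hio 6 (by norm_num)
  refine gen (new := Key.inf σ) hR hnil h0 (by simp) hk hN hZ
    (fun T D M => (M * ht T) • (1 : M2) + D • tl T) ?_ ?_ ?_ ?_ ?_ (s := s)
  · intro T D
    conv_rhs => rw [← ht_add_tl T]
    rw [smul_add, smul_smul]
  · intro P D M hP hD hM
    exact TR.add (hM.mul hP.ht) (PR.smul hD hP.tl)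
  · intro T D Θ g1 g2 g3 g4 g5 g6 g7 g8
    have hΘ : 0 < 1 - Θ := by linarith
    have hm : 0 < D * (1 - Θ) := mul_pos g4 hΘ
    have k1 : key ((D * (1 - Θ) * ht T) • (1 : M2) + D • tl T) =
        Key.reg (((1 - Θ) ^ 2)⁻¹ * rr T) (SignType.sign (ht T)) := by
      rw [key_eq_reg, ht_mk_smul, tl_mk_smul, rr, dd_mk_smul, ht_mk_smul]
      refine ⟨mul_ne_zero hm.ne' g1, smul_ne_zero g4.ne' g2, ?_, ?_⟩
      · rw [rr]
        have := g4.ne'
        have := hΘ.ne'
        field_simp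
      · rw [sign_mul, sign_pos hm, one_mul]
    rw [k1]
    rw [key_reg g2 g1] at g8
    have hq : 0 < (1 - Θ) ^ 2 := pow_pos hΘ 2
    have hq1 : (1 - Θ) ^ 2 ≤ 1 := by nlinarith
    have ht1 : 1 ≤ ((1 - Θ) ^ 2)⁻¹ := (one_le_inv₀ hq).2 hq1
    refine hL (rr T) _ _ ?_ g8
    intro z hz
    by_cases h1 : rr T ∈ Set.Ioo p q
    · exact hin _ h1 _ ht1 z hz
    · apply not_mem_uIcc
      have h2 := bump_bound hB g3 h1 hz
      have h20 := bump_bound hB g3 h1 h0
      rw [sub_zero] at h20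
      have h3 := abs_le_half (rr T)
      obtain ⟨b, hb⟩ : ∃ b, b = N.eval (rr T) / (1 + rr T ^ 2) ^ k := ⟨_, rfl⟩
      rw [← hb] at h2 h20 g7
      obtain ⟨w, hw⟩ : ∃ w, w = 1 + rr T ^ 2 := ⟨_, rfl⟩
      rw [← hw] at h2 h20 h3
      have hwp : 0 < w := by rw [hw]; positivity
      have hb0 : 0 ≤ b := le_trans g5 g7
      have h11 : 12 * (w * b) < w := by nlinarith
      have hb1 : 12 * b < 1 := by
        by_contra h12
        push Not at h12
        nlinarith
      have hΘ1 : 12 * Θ < 1 := by linarith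
      obtain ⟨u, hu⟩ : ∃ u, u = ((1 - Θ) ^ 2)⁻¹ := ⟨_, rfl⟩
      rw [← hu] at ht1 ⊢
      have hu1 : u * (1 - Θ) ^ 2 = 1 := by rw [hu]; exact inv_mul_cancel₀ hq.ne'
      have h4 : rr T - u * rr T = -((u - 1) * rr T) := by ring
      have h5 : 0 ≤ u - 1 := by linarith
      rw [h4, abs_neg, abs_mul, abs_of_nonneg h5]
      -- `u - 1 ≤ 3 Θ`
      have h6 : u - 1 ≤ 3 * Θ := by
        by_contra h7
        push Not at h7
        have h8 : (1 + 3 * Θ) * (1 - Θ) ^ 2 < u * (1 - Θ) ^ 2 :=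
          mul_lt_mul_of_pos_right (by linarith) hq
        rw [hu1] at h8
        nlinarith [mul_nonneg g5 g5, mul_nonneg g5 (mul_nonneg g5 g5)]
      have h9 : (u - 1) * |rr T| ≤ 3 * Θ * |rr T| :=
        mul_le_mul_of_nonneg_right h6 (abs_nonneg _)
      have h10 : Θ * |rr T| ≤ b * |rr T| := mul_le_mul_of_nonneg_right g7 (abs_nonneg _)
      nlinarith [mul_le_mul_of_nonneg_left h3 hb0, mul_nonneg hb0 hwp.le]
  · intro T D g1 g2 g3 g4 g5 g6
    have h1 := bump_in (by norm_num : (1 : ℝ) ≤ 6) h0 hB g3 g5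
    obtain ⟨h2, h3⟩ := hσ _ h1
    have h4 : dd T = rr T * ht T ^ 2 := by
      rw [rr, div_mul_cancel₀ _ (pow_ne_zero 2 g1)]
    have h5 : 0 < ht T ^ 2 := by positivity
    rw [zero_mul, zero_smul, zero_add, key_eq_inf]
    refine ⟨by rw [ht_smul, ht_tl, mul_zero], ?_, ?_⟩
    · rw [dd_smul, dd_eq_neg_det_tl (tl T)]
      have h6 : tl (tl T) = tl T := by
        conv_lhs => rw [tl, ht_tl, zero_smul, sub_zero]
      rw [h6, ← dd_eq_neg_det_tl, h4]
      exact mul_ne_zero (pow_ne_zero 2 g4.ne') (mul_ne_zero h2 h5.ne')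
    · rw [dd_smul, dd_eq_neg_det_tl (tl T)]
      have h6 : tl (tl T) = tl T := by
        conv_lhs => rw [tl, ht_tl, zero_smul, sub_zero]
      rw [h6, ← dd_eq_neg_det_tl, h4, sign_mul, sign_mul, sign_pos (pow_pos g4 2), one_mul,
        sign_pos h5, mul_one, h3]
  · exact ⟨r1, fun h => hio r1 h hr1, hr1N, hL ξ r1 s (hloc r1 hr1) hξ⟩

theorem stepI (hbump : StBump) : StI := by
  intro K Z ξ s hR hL hnil h0 hs hξ
  constructor
  · intro hc
    have hξ0 : 0 < ξ := hc 0 h0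
    refine stepI_aux hbump (p := ξ) (q := ξ + 1) hR hL hnil h0 hξ (by linarith) ?_ ?_ ?_ ?_
    · intro z hz hz'
      linarith [hz'.1, hc z hz]
    · intro r hr t ht z hz hz'
      have h1 : r ≤ t * r := by nlinarith [hr.1]
      rw [Set.uIcc_of_le h1] at hz'
      linarith [hz'.1, hc z hz, hr.1]
    · intro r hr
      have h1 : 0 < r := by linarith [hr.1]
      exact ⟨h1.ne', sign_pos h1⟩
    · intro r hr z hz hz'
      rw [Set.uIcc_of_le hr.1.le] at hz'
      linarith [hz'.1, hc z hz]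
  · intro hc
    have hξ0 : ξ < 0 := hc 0 h0
    refine stepI_aux hbump (p := ξ - 1) (q := ξ) hR hL hnil h0 hξ (by linarith) ?_ ?_ ?_ ?_
    · intro z hz hz'
      linarith [hz'.2, hc z hz]
    · intro r hr t ht z hz hz'
      have h1 : t * r ≤ r := by nlinarith [hr.2]
      rw [Set.uIcc_of_ge h1] at hz'
      linarith [hz'.2, hc z hz, hr.2]
    · intro r hr
      have h1 : r < 0 := by linarith [hr.2]
      exact ⟨h1.ne, sign_neg h1⟩
    · intro r hr z hz hz'
      rw [Set.uIcc_of_ge hr.2.le] at hz'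
      linarith [hz'.2, hc z hz]

/-- JOB STEPS -/
theorem steps (hbump : StBump) : StS ∧ StI := ⟨stepS hbump, stepI hbump⟩

end Pool.Agent.K7.H7.MISteps
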