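import Pool.Agent.K7.H16.SG.Stm

/-! # Project SG, job REC1 -/

set_option autoImplicit false

open Finset

namespace Pool.Agent.K7.H7.SGREC1

open Pool.Agent.K7.H16.SG

theorem red (hF0 : StF0) (hW : StW) (A : Finset ℕ) (M : ℕ) (hA : ∀ a ∈ A, a < M) :
    D (insert M A) = ∑ τ ∈ words A, f (τ ++ [M]) ^ 2 := by
  classical
  have hMA : M ∉ A := fun h => lt_irrefl _ (hA M h)
  have hinj : ∀ x ∈ words A, ∀ y ∈ words A, x ++ [M] = y ++ [M] → x = y := by
    intro x _ y _ h
    exact List.append_cancel_right h
  rw [D, ← Finset.sum_image (s := words A) (g := fun τ : List ℕ => τ ++ [M])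
    (f := fun w => f w ^ 2) hinj]
  symm
  apply Finset.sum_subset
  · intro w hw
    rw [Finset.mem_image] at hw
    obtain ⟨τ, hτ, rfl⟩ := hw
    rw [hW.1] at hτ ⊢
    obtain ⟨h1, h2⟩ := hτ
    refine ⟨?_, ?_⟩
    · rw [List.nodup_append]
      refine ⟨h1, List.nodup_singleton M, ?_⟩
      intro a ha b hb hab
      rw [List.mem_singleton] at hb
      subst hb
      subst hab
      exact hMA (h2 ▸ List.mem_toFinset.mpr ha)
    · ext x
      simp only [List.mem_toFinset, List.mem_append, List.mem_singleton, Finset.mem_insert, ← h2]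
      tauto
  · intro w hw hnot
    by_contra hne
    have hfne : f w ≠ 0 := fun h => hne (by rw [h]; rfl)
    have hw' := (hW.1 _ _).mp hw
    obtain ⟨hnd, hfin⟩ := hw'
    have hwne : w ≠ [] := by
      rintro rfl
      have : M ∈ (([] : List ℕ).toFinset) := by rw [hfin]; exact Finset.mem_insert_self _ _
      simp at this
    obtain ⟨τ, m, rfl, hlt⟩ := hF0 w hnd hfne hwne
    have hMmem : M ∈ (τ ++ [m]) := by
      rw [← List.mem_toFinset, hfin]
      exact Finset.mem_insert_self _ _
    have hmmem : m ∈ insert M A := by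
      rw [← hfin, List.mem_toFinset]
      simp
    have hmM : m = M := by
      rw [List.mem_append, List.mem_singleton] at hMmem
      rw [Finset.mem_insert] at hmmem
      rcases hmmem with h | h
      · exact h
      · rcases hMmem with h' | h'
        · exact absurd (hlt M h') (not_lt.mpr (hA m h).le)
        · exact h'.symm
    subst hmM
    apply hnot
    rw [Finset.mem_image]
    refine ⟨τ, ?_, rfl⟩
    rw [hW.1]
    have hτnd : τ.Nodup := (List.nodup_append.mp hnd).1
    refine ⟨hτnd, ?_⟩
    ext x
    have hx : x ∈ (τ ++ [m]) ↔ x ∈ insert m A := by rw [← hfin, List.mem_toFinset]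
    rw [List.mem_append, List.mem_singleton, Finset.mem_insert] at hx
    rw [List.mem_toFinset]
    constructor
    · intro h
      rcases hx.mp (Or.inl h) with h' | h'
      · exact absurd (hlt x h) (by rw [h']; exact lt_irrefl _)
      · exact h'
    · intro h
      rcases hx.mpr (Or.inr h) with h' | h'
      · exact h'
      · exact absurd h (by rw [h']; exact hMA)

theorem t (hF1 : StF1) (hF0 : StF0) (hW : StW) (hSpl : StSpl) : StRec1 := by
  classical
  intro A M hA
  have hcard : ∀ τ ∈ words A, τ.length = A.card := by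
    intro τ hτ
    obtain ⟨h1, h2⟩ := (hW.1 _ _).mp hτ
    rw [← h2, List.toFinset_card_of_nodup h1]
  rw [red hF0 hW A M hA]
  calc ∑ τ ∈ words A, f (τ ++ [M]) ^ 2
      ≤ ∑ τ ∈ words A, (A.card + 1) * ∑ i ∈ range (A.card + 1),
          (f (τ.take i)) ^ 2 * (f (τ.drop i)) ^ 2 := by
        apply Finset.sum_le_sum
        intro τ hτ
        obtain ⟨h1, h2⟩ := (hW.1 _ _).mp hτ
        rw [hF1 τ M h1 (fun a ha => hA a (h2 ▸ List.mem_toFinset.mpr ha)), hcard τ hτ]
        have := sq_sum_le_card_mul_sum_sq (s := range (A.card + 1))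
          (f := fun i => f (τ.take i) * f (τ.drop i))
        rw [Finset.card_range] at this
        simp only [mul_pow] at this
        exact_mod_cast this
    _ = (A.card + 1) * ∑ i ∈ range (A.card + 1), ∑ τ ∈ words A,
          (f (τ.take i)) ^ 2 * (f (τ.drop i)) ^ 2 := by
        rw [← Finset.mul_sum, Finset.sum_comm]
    _ = (A.card + 1) * ∑ i ∈ range (A.card + 1), ∑ B ∈ powersetCard i A, D B * D (A \ B) := by
        congr 1
        apply Finset.sum_congr rfl
        intro i hi
        exact hSpl A i (fun w => f w ^ 2) (fun w => f w ^ 2)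
          (Nat.lt_succ_iff.mp (Finset.mem_range.mp hi))
    _ = (A.card + 1) * ∑ B ∈ A.powerset, D B * D (A \ B) := by
        rw [Finset.sum_powerset]

end Pool.Agent.K7.H7.SGREC1
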